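import Pool.Agent.N245.DS.Geo

set_option autoImplicit false

/-!
# DS/COVER: passage to the quotient of a finite covering
-/

namespace Pool.Agent.N339.DS

open Pool.Agent.N245.DS MeasureTheory

/-- the points which can be reached from `p` by curves of length less than `r` -/
def B (ρ : ℂ → ℝ) (p : ℂ) (r : ℝ) : Set ℂ :=
  {q | ∃ γ : ℝ → ℂ, ContDiff ℝ 1 γ ∧ γ 0 = p ∧ γ 1 = q ∧ len ρ γ < r}

theorem len_nonneg (ρ : ℂ → ℝ) (γ : ℝ → ℂ) : 0 ≤ len ρ γ := by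
  unfold len
  apply intervalIntegral.integral_nonneg zero_le_one
  intro s _
  positivity

theorem disc_iff (ρ : ℂ → ℝ) (G : Subgroup (ℂ ≃ᵢ ℂ)) (p q : ℂ) (r : ℝ) :
    q ∈ disc ρ G p r ↔ ∃ σ ∈ G, σ q ∈ B ρ p r := by
  change gdist ρ G p q < r ↔ _
  unfold gdist
  rw [csInf_lt_iff]
  · constructor
    · rintro ⟨l, ⟨γ, h1, h2, ⟨σ, hσ, h3⟩, rfl⟩, h4⟩
      exact ⟨σ, hσ, γ, h1, h2, h3, h4⟩
    · rintro ⟨σ, hσ, γ, h1, h2, h3, h4⟩
      exact ⟨len ρ γ, ⟨γ, h1, h2, ⟨σ, hσ, h3⟩, rfl⟩, h4⟩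
  · refine ⟨0, ?_⟩
    rintro l ⟨γ, _, _, _, rfl⟩
    exact len_nonneg ρ γ
  · refine ⟨_, fun s : ℝ => p + (s : ℂ) * (q - p), ?_, ?_, ⟨1, G.one_mem, ?_⟩, rfl⟩
    · exact contDiff_const.add ((Complex.ofRealCLM.contDiff).mul contDiff_const)
    · simp
    · simp

theorem smul_curve (σ : ℂ ≃ᵢ ℂ) {γ : ℝ → ℂ} (hγ : ContDiff ℝ 1 γ) :
    ContDiff ℝ 1 (fun s => σ (γ s)) ∧ ∀ s, ‖deriv (fun s => σ (γ s)) s‖ = ‖deriv γ s‖ := by
  have h1 : (fun s => σ (γ s)) = fun s => σ.toRealLinearIsometryEquiv (γ s) + σ 0 := by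
    funext s
    rw [IsometryEquiv.toRealLinearIsometryEquiv_apply]
    ring
  have h2 : ∀ s, HasDerivAt (fun s => σ (γ s)) (σ.toRealLinearIsometryEquiv (deriv γ s)) s := by
    intro s
    rw [h1]
    apply HasDerivAt.add_const
    have h3 : HasDerivAt γ (deriv γ s) s := (hγ.differentiable (by simp) s).hasDerivAt
    exact (σ.toRealLinearIsometryEquiv.toContinuousLinearEquiv :
      ℂ →L[ℝ] ℂ).hasFDerivAt.comp_hasDerivAt s h3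
  constructor
  · rw [h1]
    exact ((σ.toRealLinearIsometryEquiv.toContinuousLinearEquiv :
      ℂ →L[ℝ] ℂ).contDiff.comp hγ).add contDiff_const
  · intro s
    rw [(h2 s).deriv]
    exact σ.toRealLinearIsometryEquiv.norm_map _

theorem smul_len {ρ : ℂ → ℝ} {σ : ℂ ≃ᵢ ℂ} (hσ : ∀ z, ρ (σ z) = ρ z) {γ : ℝ → ℂ}
    (hγ : ContDiff ℝ 1 γ) : len ρ (fun s => σ (γ s)) = len ρ γ := by
  unfold len
  apply intervalIntegral.integral_congr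
  intro s _
  simp only
  rw [(smul_curve σ hγ).2, hσ]

theorem smul_B {ρ : ℂ → ℝ} {σ : ℂ ≃ᵢ ℂ} (hσ : ∀ z, ρ (σ z) = ρ z) {p q : ℂ} {r : ℝ}
    (h : q ∈ B ρ p r) : σ q ∈ B ρ (σ p) r := by
  obtain ⟨γ, h1, h2, h3, h4⟩ := h
  refine ⟨fun s => σ (γ s), (smul_curve σ h1).1, by simp only [h2], by simp only [h3], ?_⟩
  rw [smul_len hσ h1]
  exact h4

section

variable {ρ : ℂ → ℝ} {G : Subgroup (ℂ ≃ᵢ ℂ)} (hG : ∀ σ ∈ G, ∀ z, ρ (σ z) = ρ z)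

include hG

theorem disc_smul {σ : ℂ ≃ᵢ ℂ} (hσ : σ ∈ G) (p : ℂ) (r : ℝ) :
    disc ρ G (σ p) r = disc ρ G p r := by
  ext q
  rw [disc_iff, disc_iff]
  constructor
  · rintro ⟨τ, hτ, h⟩
    refine ⟨σ⁻¹ * τ, G.mul_mem (G.inv_mem hσ) hτ, ?_⟩
    have := smul_B (hG _ (G.inv_mem hσ)) h
    rwa [IsometryEquiv.inv_apply_self] at this
  · rintro ⟨τ, hτ, h⟩
    refine ⟨σ * τ, G.mul_mem hσ hτ, ?_⟩
    exact smul_B (hG _ hσ) h

theorem disc_sub {H : Subgroup (ℂ ≃ᵢ ℂ)} (hHG : H ≤ G) (p q : ℂ) (r : ℝ) :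
    q ∈ disc ρ G p r ↔ ∃ σ ∈ G, q ∈ disc ρ H (σ p) r := by
  constructor
  · intro h
    obtain ⟨τ, hτ, h2⟩ := (disc_iff ρ G p q r).mp h
    refine ⟨τ⁻¹, G.inv_mem hτ, (disc_iff _ _ _ _ _).mpr ⟨1, H.one_mem, ?_⟩⟩
    have := smul_B (hG _ (G.inv_mem hτ)) h2
    rwa [IsometryEquiv.inv_apply_self] at this
  · rintro ⟨σ, hσ, h⟩
    obtain ⟨τ, hτ, h2⟩ := (disc_iff _ _ _ _ _).mp h
    refine (disc_iff _ _ _ _ _).mpr ⟨σ⁻¹ * τ, G.mul_mem (G.inv_mem hσ) (hHG hτ), ?_⟩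
    have := smul_B (hG _ (G.inv_mem hσ)) h2
    rwa [IsometryEquiv.inv_apply_self] at this

end

theorem image_disc (ρ : ℂ → ℝ) {G : Subgroup (ℂ ≃ᵢ ℂ)} {φ : ℂ → ℝ}
    (hφ : ∀ σ ∈ G, ∀ z, φ (σ z) = φ z) (p : ℂ) (r : ℝ) :
    (fun q => |φ q|) '' disc ρ G p r = (fun q => |φ q|) '' B ρ p r := by
  apply Set.Subset.antisymm
  · rintro _ ⟨q, hq, rfl⟩
    obtain ⟨σ, hσ, h⟩ := (disc_iff _ _ _ _ _).mp hq
    exact ⟨σ q, h, by simp only [hφ σ hσ q]⟩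
  · rintro _ ⟨q, hq, rfl⟩
    exact ⟨q, (disc_iff _ _ _ _ _).mpr ⟨1, G.one_mem, hq⟩, rfl⟩

theorem doubling_eq (ρ : ℂ → ℝ) {G H : Subgroup (ℂ ≃ᵢ ℂ)} {φ : ℂ → ℝ} (hHG : H ≤ G)
    (hφ : ∀ σ ∈ G, ∀ z, φ (σ z) = φ z) (p : ℂ) (r : ℝ) :
    doubling ρ H φ p r = doubling ρ G φ p r := by
  unfold doubling
  rw [image_disc ρ hφ, image_disc ρ hφ, image_disc ρ fun σ hσ => hφ σ (hHG hσ),
    image_disc ρ fun σ hσ => hφ σ (hHG hσ)]

theorem cover : S_COVER := by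
  classical
  intro ρ G H _ _ hG hHG hk hH C C₁ C₂ hC hC₁ hC₂
  set k := H.relIndex G with hkdef
  have hkpos : (0 : ℝ) < k := by
    have : 0 < k := Nat.pos_of_ne_zero hk
    exact_mod_cast this
  have hk1 : (1 : ℝ) ≤ k := by
    have : 1 ≤ k := Nat.pos_of_ne_zero hk
    exact_mod_cast this
  obtain ⟨A, hA, hA2⟩ := hH C (k * C₁) (k * C₂) hC (by positivity) (by positivity)
  refine ⟨A, hA, ?_⟩
  intro lam φ hφ ι _ c hc
  have hφH : Eigen ρ H lam φ :=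
    ⟨hφ.pos, hφ.smooth, fun σ hσ => hφ.inv σ (hHG hσ), hφ.ne, hφ.eq⟩
  let Q : Type := G ⧸ H.subgroupOf G
  have hfin : Finite Q := by
    have h1 : Nat.card Q ≠ 0 := hk
    exact Nat.finite_of_card_ne_zero h1
  let _ : Fintype Q := Fintype.ofFinite Q
  have hcardQ : Fintype.card Q = k := by
    rw [← Nat.card_eq_fintype_card]
    rfl
  let s : Q → G := fun j => (Quotient.out j)⁻¹
  have hs : ∀ σ ∈ G, ∃ j : Q, ∃ h ∈ H, σ = h * (s j : ℂ ≃ᵢ ℂ) := by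
    intro σ hσ
    let τ : G := ⟨σ⁻¹, G.inv_mem hσ⟩
    obtain ⟨h, hh⟩ := QuotientGroup.mk_out_eq_mul (H.subgroupOf G) τ
    refine ⟨(QuotientGroup.mk τ : Q), h.1.1, ?_, ?_⟩
    · exact Subgroup.mem_subgroupOf.mp h.2
    · have h1 : (s (QuotientGroup.mk τ : Q)) = (τ * h.1)⁻¹ := by
        change (Quotient.out (QuotientGroup.mk τ : Q))⁻¹ = _
        rw [← hh]
      rw [h1]
      change σ = (h.1 : G).1 * ((σ⁻¹ * (h.1 : G).1)⁻¹)
      group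
  have hH' : ∀ σ ∈ H, ∀ z, ρ (σ z) = ρ z := fun σ hσ => hG σ (hHG hσ)
  let c' : ι × Q → ℂ := fun x => (s x.2 : ℂ ≃ᵢ ℂ) (c x.1)
  set r := C / Real.sqrt lam with hr
  have hcov : ∀ q i, q ∈ disc ρ G (c i) r → ∃ j, q ∈ disc ρ H (c' (i, j)) r := by
    intro q i hq
    obtain ⟨σ, hσ, h1⟩ := (disc_sub hG hHG (c i) q r).mp hq
    obtain ⟨j, h, hh, rfl⟩ := hs σ hσ
    refine ⟨j, ?_⟩
    have h2 := disc_smul hH' hh ((s j : ℂ ≃ᵢ ℂ) (c i)) r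
    rw [← h2]
    exact h1
  have hcov2 : ∀ q i j, q ∈ disc ρ H (c' (i, j)) r → q ∈ disc ρ G (c i) r := by
    intro q i j hq
    exact (disc_sub hG hHG (c i) q r).mpr ⟨s j, (s j).2, hq⟩
  have hadm : Admissible ρ H lam φ C (k * C₁) (k * C₂) c' := by
    refine ⟨?_, ?_, ?_, ?_, ?_⟩
    · intro q
      obtain ⟨i, hi⟩ := hc.cover q
      obtain ⟨j, hj⟩ := hcov q i hi
      exact ⟨(i, j), hj⟩
    · rw [Fintype.card_prod, hcardQ]
      have h1 := hc.lower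
      push_cast
      have h2 : ((k : ℝ) * C₂)⁻¹ * lam = (k : ℝ)⁻¹ * (C₂⁻¹ * lam) := by
        rw [mul_inv]
        ring
      rw [h2]
      have h3 : (k : ℝ)⁻¹ * (C₂⁻¹ * lam) ≤ (k : ℝ)⁻¹ * Fintype.card ι :=
        mul_le_mul_of_nonneg_left h1 (by positivity)
      have h4 : (k : ℝ)⁻¹ ≤ k := (inv_le_one_of_one_le₀ hk1).trans hk1
      have h5 : (k : ℝ)⁻¹ * Fintype.card ι ≤ k * Fintype.card ι :=
        mul_le_mul_of_nonneg_right h4 (by positivity)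
      linarith [mul_comm (k : ℝ) (Fintype.card ι : ℝ)]
    · rw [Fintype.card_prod, hcardQ]
      have h1 := hc.upper
      push_cast
      have h2 : (k : ℝ) * Fintype.card ι ≤ k * (C₂ * lam) :=
        mul_le_mul_of_nonneg_left h1 hkpos.le
      linarith [mul_comm (k : ℝ) (Fintype.card ι : ℝ), mul_assoc (k : ℝ) C₂ lam]
    · intro q
      have h1 := hc.mult q
      have h2 : {x : ι × Q | q ∈ disc ρ H (c' x) r} ⊆
          {i | q ∈ disc ρ G (c i) r} ×ˢ (Set.univ : Set Q) := by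
        rintro ⟨i, j⟩ hx
        exact ⟨hcov2 q i j hx, Set.mem_univ _⟩
      have h3 := Set.ncard_le_ncard h2 (Set.toFinite _)
      rw [Set.ncard_prod, Set.ncard_univ, Nat.card_eq_fintype_card, hcardQ] at h3
      have h4 : ({x : ι × Q | q ∈ disc ρ H (c' x) r}.ncard : ℝ) ≤
          ({i | q ∈ disc ρ G (c i) r}.ncard : ℝ) * k := by exact_mod_cast h3
      have h5 : ({i | q ∈ disc ρ G (c i) r}.ncard : ℝ) * k ≤ C₁ * k :=
        mul_le_mul_of_nonneg_right h1 hkpos.le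
      linarith [mul_comm C₁ (k : ℝ)]
    · rintro ⟨i, j⟩
      change φ ((s j : ℂ ≃ᵢ ℂ) (c i)) = 0
      rw [hφ.inv _ (s j).2]
      exact hc.zero i
  have hfinal := hA2 lam φ hφH (ι × Q) c' hadm
  have hterm : ∀ x : ι × Q, doubling ρ H φ (c' x) r = doubling ρ G φ (c x.1) r := by
    rintro ⟨i, j⟩
    rw [doubling_eq ρ hHG hφ.inv]
    change doubling ρ G φ ((s j : ℂ ≃ᵢ ℂ) (c i)) r = _
    unfold doubling
    rw [disc_smul hG (s j).2, disc_smul hG (s j).2]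
  rw [Finset.sum_congr rfl fun x _ => hterm x, Fintype.sum_prod_type] at hfinal
  simp only [Finset.sum_const, Finset.card_univ, hcardQ, nsmul_eq_mul] at hfinal
  rw [← Finset.mul_sum, Fintype.card_prod, hcardQ] at hfinal
  push_cast at hfinal
  rw [mul_comm (Fintype.card ι : ℝ) (k : ℝ), mul_div_mul_left _ _ hkpos.ne'] at hfinal
  exact hfinal

end Pool.Agent.N339.DS
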